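import Mathlib

/-!
# A cubic graph with fault cost 1

An explicit 2-connected cubic graph on 32 vertices with fault cost 1.
-/

namespace Pool.Agent.Results.MP_54aac5_co.CubicFaultCostOne

/-! ## Definitions -/

section Defs

variable {V : Type*}

/-- The degree of the vertex `v` in the graph `H`. -/
noncomputable def deg (H : SimpleGraph V) (v : V) : ℕ := (H.neighborSet v).ncard

/-- `H` is (the edge set of) a hamiltonian cycle of `G`: a connected spanning subgraph of `G` in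
which every vertex has degree two. -/
def IsHamCycle (G H : SimpleGraph V) : Prop := H ≤ G ∧ H.Connected ∧ ∀ v, deg H v = 2

/-- `G` is hamiltonian. -/
def Hamiltonian (G : SimpleGraph V) : Prop := ∃ H, IsHamCycle G H

/-- `T` is a spanning tree of `G`. -/
def IsSpanningTree (G T : SimpleGraph V) : Prop := T ≤ G ∧ T.IsTree

/-- The number of leaves (vertices of degree one). -/
noncomputable def leaves (T : SimpleGraph V) : ℕ := {v | deg T v = 1}.ncard

open Classical in
/-- The minimum leaf number: `1` for a hamiltonian graph, and otherwise the least number of leaves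
of a spanning tree. -/
noncomputable def ml (G : SimpleGraph V) : ℕ :=
  if Hamiltonian G then 1 else sInf {k | ∃ T, IsSpanningTree G T ∧ leaves T = k}

/-- `S` is an ml-subgraph of `G`: a hamiltonian cycle if `G` is hamiltonian, and otherwise a
spanning tree with exactly `ml G` leaves. -/
def IsMlSubgraph (G S : SimpleGraph V) : Prop :=
  (Hamiltonian G ∧ IsHamCycle G S) ∨ (¬ Hamiltonian G ∧ IsSpanningTree G S ∧ leaves S = ml G)

/-- The vertex-deleted graph `G - v`. -/
def del (G : SimpleGraph V) (v : V) : SimpleGraph {w : V // w ≠ v} := G.comap Subtype.val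

/-- The transition cost `τ(S, S_v)`: the number of vertices `w ≠ v` whose degrees in `S` and in
`S_v` differ. -/
noncomputable def transitionCost (v : V) (S : SimpleGraph V) (Sv : SimpleGraph {w : V // w ≠ v}) :
    ℕ :=
  {w : {w : V // w ≠ v} | deg S w.1 ≠ deg Sv w}.ncard

/-- `φ_S(G)`, the maximum over all `v` of the least transition cost `τ(S, S_v)` over all
ml-subgraphs `S_v` of `G - v`. -/
noncomputable def faultCostOf (G S : SimpleGraph V) : ℕ :=
  ⨆ v : V, sInf {t | ∃ Sv, IsMlSubgraph (del G v) Sv ∧ transitionCost v S Sv = t}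

/-- The fault cost `φ(G)`, the minimum of `φ_S(G)` over all ml-subgraphs `S` of `G`. -/
noncomputable def faultCost (G : SimpleGraph V) : ℕ :=
  sInf {t | ∃ S, IsMlSubgraph G S ∧ faultCostOf G S = t}

/-- `G` is 2-connected: it has at least three vertices, is connected, and stays connected after
the deletion of any one vertex. -/
def TwoConnected (G : SimpleGraph V) : Prop :=
  3 ≤ Nat.card V ∧ G.Connected ∧ ∀ v, (del G v).Connected

end Defs

/-! ## General facts on degrees and trees -/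

section General

variable {V : Type*} [Finite V]

omit [Finite V] in
lemma deg_eq (H : SimpleGraph V) (v : V) [Fintype (H.neighborSet v)] : deg H v = H.degree v := by
  unfold deg
  rw [Set.ncard_eq_toFinset_card', ← SimpleGraph.card_neighborFinset_eq_degree]
  rfl

omit [Finite V] in
lemma sum_deg [Fintype V] (H : SimpleGraph V) : ∑ v, deg H v = 2 * Nat.card H.edgeSet := by
  classical
  have h := H.sum_degrees_eq_twice_card_edges
  rw [Nat.card_eq_fintype_card, ← SimpleGraph.edgeFinset_card, ← h]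
  exact Finset.sum_congr rfl fun v _ => deg_eq H v

omit [Finite V] in
lemma tree_sum_deg [Fintype V] {T : SimpleGraph V} (hT : T.IsTree) :
    ∑ v, deg T v + 2 = 2 * Fintype.card V := by
  have h := (SimpleGraph.isTree_iff_connected_and_card.1 hT).2
  rw [sum_deg, ← Nat.card_eq_fintype_card, ← h]
  ring

omit [Finite V] in
lemma isTree_of_sum_deg [Fintype V] {T : SimpleGraph V} (hc : T.Connected)
    (h : ∑ v, deg T v + 2 = 2 * Fintype.card V) : T.IsTree := by
  rw [SimpleGraph.isTree_iff_connected_and_card]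
  refine ⟨hc, ?_⟩
  rw [sum_deg, ← Nat.card_eq_fintype_card] at h
  omega

lemma two_le_leaves [Nontrivial V] {T : SimpleGraph V} (hT : T.IsTree) : 2 ≤ leaves T := by
  classical
  have := Fintype.ofFinite V
  obtain ⟨u, v, huv, hu, hv⟩ := hT.exists_ne_and_degree_eq_one
  unfold leaves
  have h1 : ({u, v} : Set V) ⊆ {v | deg T v = 1} := by
    intro x hx
    rcases hx with rfl | rfl
    · rw [Set.mem_ofPred_eq, deg_eq]; exact hu
    · rw [Set.mem_ofPred_eq, deg_eq]; exact hv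
  have h2 := Set.ncard_le_ncard h1 (Set.toFinite _)
  rwa [Set.ncard_pair huv] at h2

/-- If there is a spanning tree with two leaves in a non-hamiltonian graph then `ml = 2`. -/
lemma ml_eq_two [Nontrivial V] {G T : SimpleGraph V} (hG : ¬ Hamiltonian G)
    (hT : IsSpanningTree G T) (h2 : leaves T = 2) : ml G = 2 := by
  unfold ml
  rw [if_neg hG]
  apply le_antisymm
  · exact Nat.sInf_le ⟨T, hT, h2⟩
  · refine le_csInf ⟨2, T, hT, h2⟩ ?_
    rintro _ ⟨T', hT', rfl⟩
    exact two_le_leaves hT'.2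

end General

/-! ## Paths given by enumerations -/

section Paths

/-- the path along the enumeration `σ` -/
def P {V : Type*} {n : ℕ} (σ : Fin n ≃ V) : SimpleGraph V :=
  (SimpleGraph.pathGraph n).comap σ.symm

variable {V : Type*} {n : ℕ} (σ : Fin (n + 2) ≃ V)

lemma P_adj (σ : Fin n ≃ V) {x y : V} : (P σ).Adj x y ↔
    (σ.symm x).val + 1 = (σ.symm y).val ∨ (σ.symm y).val + 1 = (σ.symm x).val := by
  unfold P
  rw [SimpleGraph.comap_adj, SimpleGraph.pathGraph_adj]

lemma P_le {G : SimpleGraph V} (σ : Fin n ≃ V)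
    (h : ∀ i j : Fin n, i.val + 1 = j.val → G.Adj (σ i) (σ j)) : P σ ≤ G := by
  intro x y hxy
  rw [P_adj] at hxy
  rcases hxy with hxy | hxy
  · have := h _ _ hxy
    simpa using this
  · have := h _ _ hxy
    simpa using this.symm

lemma P_connected : (P σ).Connected := by
  have h := SimpleGraph.pathGraph_connected (n + 1)
  exact (SimpleGraph.Iso.connected_iff (SimpleGraph.Iso.comap σ.symm _)).2 h

/-- degree of the end vertices and interior vertices of the path. -/
lemma deg_P (i : Fin (n + 2)) : deg (P σ) (σ i) = if i.val = 0 ∨ i.val = n + 1 then 1 else 2 := by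
  unfold deg
  have himg : (P σ).neighborSet (σ i) =
      σ '' {j : Fin (n + 2) | i.val + 1 = j.val ∨ j.val + 1 = i.val} := by
    ext y
    rw [SimpleGraph.mem_neighborSet, P_adj]
    simp only [Equiv.symm_apply_apply, Set.mem_image, Set.mem_ofPred_eq]
    constructor
    · intro h
      exact ⟨σ.symm y, h, by simp⟩
    · rintro ⟨j, hj, rfl⟩
      simpa using hj
  rw [himg, Set.ncard_image_of_injective _ σ.injective]
  have hi := i.isLt
  split_ifs with h
  · rcases h with h | h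
    · have : {j : Fin (n + 2) | i.val + 1 = j.val ∨ j.val + 1 = i.val} = {⟨1, by omega⟩} := by
        ext j
        simp only [Set.mem_ofPred_eq, Set.mem_singleton_iff, Fin.ext_iff]
        omega
      rw [this, Set.ncard_singleton]
    · have : {j : Fin (n + 2) | i.val + 1 = j.val ∨ j.val + 1 = i.val} = {⟨n, by omega⟩} := by
        ext j
        have := j.isLt
        simp only [Set.mem_ofPred_eq, Set.mem_singleton_iff, Fin.ext_iff]
        omega
      rw [this, Set.ncard_singleton]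
  · push Not at h
    have : {j : Fin (n + 2) | i.val + 1 = j.val ∨ j.val + 1 = i.val} =
        {⟨i.val - 1, by omega⟩, ⟨i.val + 1, by omega⟩} := by
      ext j
      simp only [Set.mem_ofPred_eq, Set.mem_singleton_iff, Set.mem_insert_iff, Fin.ext_iff]
      omega
    rw [this, Set.ncard_pair]
    intro h'
    rw [Fin.ext_iff] at h'
    simp only at h'
    omega

open Classical in
lemma deg_P' (x : V) : deg (P σ) x =
    if x = σ 0 ∨ x = σ (Fin.last (n + 1)) then 1 else 2 := by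
  obtain ⟨i, rfl⟩ := σ.surjective x
  rw [deg_P]
  refine if_congr ?_ rfl rfl
  rw [σ.injective.eq_iff, σ.injective.eq_iff, Fin.ext_iff, Fin.ext_iff]
  simp

lemma deg_P_end {x : V} (h : x = σ 0 ∨ x = σ (Fin.last (n + 1))) : deg (P σ) x = 1 := by
  rw [deg_P', if_pos h]

lemma deg_P_mid {x : V} (h : ¬ (x = σ 0 ∨ x = σ (Fin.last (n + 1)))) : deg (P σ) x = 2 := by
  rw [deg_P', if_neg h]

lemma leaves_P : leaves (P σ) = 2 := by
  classical
  unfold leaves
  have : {v | deg (P σ) v = 1} = {σ 0, σ (Fin.last (n + 1))} := by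
    ext x
    rw [Set.mem_ofPred_eq, deg_P']
    simp only [Set.mem_insert_iff, Set.mem_singleton_iff]
    split_ifs with h <;> simp [h]
  rw [this, Set.ncard_pair]
  intro h
  have := σ.injective h
  rw [Fin.ext_iff] at this
  simp at this

lemma P_isTree : (P σ).IsTree := by
  have : Finite V := Finite.of_equiv _ σ
  have := Fintype.ofFinite V
  apply isTree_of_sum_deg (P_connected σ)
  have hcard : Fintype.card V = n + 2 := by
    rw [← Fintype.card_congr σ, Fintype.card_fin]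
  rw [hcard, ← Equiv.sum_comp σ (fun x => deg (P σ) x)]
  simp_rw [deg_P]
  rw [Fin.sum_univ_succ, Fin.sum_univ_castSucc]
  simp only [Fin.val_zero, true_or, if_true, Fin.succ_last, Fin.val_last, Nat.succ_eq_add_one,
    or_true, Fin.val_succ, Fin.val_castSucc]
  have h7 : ∀ i : Fin n, (if i.val + 1 = 0 ∨ i.val + 1 = n + 1 then 1 else 2) = 2 := by
    intro i
    have := i.isLt
    rw [if_neg]; omega
  simp_rw [h7]
  simp
  ring

end Paths

/-! ## The graph -/

/-- neighbour table -/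
def nbTab : List (List ℕ) :=
  [[10, 14, 16],
    [13, 6, 17],
    [11, 7, 12],
    [5, 6, 12],
    [11, 8, 14],
    [3, 15, 8],
    [1, 14, 3],
    [2, 9, 12],
    [9, 4, 5],
    [7, 8, 10],
    [13, 0, 9],
    [2, 4, 15],
    [2, 7, 3],
    [15, 10, 1],
    [6, 0, 4],
    [13, 5, 11],
    [26, 30, 0],
    [29, 22, 1],
    [27, 23, 28],
    [21, 22, 28],
    [27, 24, 30],
    [19, 31, 24],
    [17, 30, 19],
    [18, 25, 28],
    [25, 20, 21],
    [23, 24, 26],
    [29, 16, 25],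
    [18, 20, 31],
    [18, 23, 19],
    [31, 26, 17],
    [22, 16, 20],
    [29, 21, 27]]

/-- the neighbours of `x` -/
def nb (x k : ℕ) : ℕ := (nbTab.getD x []).getD k 0

/-- adjacency on natural numbers -/
def adjB (x y : ℕ) : Bool := nb x 0 == y || nb x 1 == y || nb x 2 == y

lemma adjB_symm : ∀ x < 32, ∀ y < 32, adjB x y = adjB y x := by decide +kernel

lemma adjB_irrefl : ∀ x < 32, adjB x x = false := by decide +kernel

lemma nb_lt : ∀ x < 32, ∀ k < 3, nb x k < 32 := by decide +kernel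

lemma nb_ne : ∀ x < 32, nb x 0 ≠ nb x 1 ∧ nb x 0 ≠ nb x 2 ∧ nb x 1 ≠ nb x 2 := by decide +kernel

/-- The cubic graph. -/
def G : SimpleGraph (Fin 32) where
  Adj x y := adjB x.val y.val = true
  symm := ⟨fun x y h => by rw [adjB_symm _ y.isLt _ x.isLt]; exact h⟩
  loopless := ⟨fun x h => by rw [adjB_irrefl _ x.isLt] at h; exact absurd h (by decide)⟩

lemma G_adj {x y : Fin 32} : G.Adj x y ↔ y.val = nb x.val 0 ∨ y.val = nb x.val 1 ∨
    y.val = nb x.val 2 := by
  change adjB x.val y.val = true ↔ _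
  unfold adjB
  simp only [Bool.or_eq_true, beq_iff_eq, or_assoc]
  constructor <;>
  · rintro (h | h | h)
    · exact Or.inl h.symm
    · exact Or.inr (Or.inl h.symm)
    · exact Or.inr (Or.inr h.symm)

lemma G_cubic (v : Fin 32) : deg G v = 3 := by
  unfold deg
  have h0 := nb_lt v.val v.isLt 0 (by norm_num)
  have h1 := nb_lt v.val v.isLt 1 (by norm_num)
  have h2 := nb_lt v.val v.isLt 2 (by norm_num)
  have hne := nb_ne v.val v.isLt
  have : G.neighborSet v = {⟨nb v.val 0, h0⟩, ⟨nb v.val 1, h1⟩, ⟨nb v.val 2, h2⟩} := by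
    ext y
    rw [SimpleGraph.mem_neighborSet, G_adj]
    simp only [Set.mem_insert_iff, Set.mem_singleton_iff, Fin.ext_iff]
  rw [this]
  rw [Set.ncard_insert_of_notMem, Set.ncard_pair]
  · intro h; rw [Fin.ext_iff] at h; exact hne.2.2 h
  · simp only [Set.mem_insert_iff, Set.mem_singleton_iff, Fin.ext_iff]
    push Not
    exact ⟨hne.1, hne.2.1⟩

/-! ## Non-hamiltonicity certificate -/

/-- certificates -/
inductive Cert where
  | cut (C : List ℕ)
  | deg (y : ℕ)
  | node (v : ℕ) (t0 t1 t2 : Cert)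

/-- the edge `xy` is in the list -/
def mem (out : List (ℕ × ℕ)) (x y : ℕ) : Bool :=
  out.any (fun p => (p.1 == x && p.2 == y) || (p.1 == y && p.2 == x))

/-- in the half starting at `off` -/
def inW (off x : ℕ) : Bool := off ≤ x && x < off + 16

/-- the certificate checker -/
def check (off : ℕ) : List (ℕ × ℕ) → Cert → Bool
  | out, .cut C => !C.isEmpty && C.all (fun x => inW off x) &&
      C.all (fun x => (C.contains (nb x 0) || mem out x (nb x 0)) &&
        (C.contains (nb x 1) || mem out x (nb x 1)) &&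
        (C.contains (nb x 2) || mem out x (nb x 2)))
  | out, .deg y => inW off y &&
      ((mem out y (nb y 0) && mem out y (nb y 1)) || (mem out y (nb y 0) && mem out y (nb y 2)) ||
        (mem out y (nb y 1) && mem out y (nb y 2)))
  | out, .node v t0 t1 t2 => inW off v && check off ((v, nb v 0) :: out) t0 &&
      check off ((v, nb v 1) :: out) t1 && check off ((v, nb v 2) :: out) t2

lemma mem_spec {R : ℕ → ℕ → Prop} (hs : ∀ x y, R x y → R y x) {out : List (ℕ × ℕ)}
    (hout : ∀ p ∈ out, ¬ R p.1 p.2) {x y : ℕ} (h : mem out x y = true) : ¬ R x y := by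
  unfold mem at h
  rw [List.any_eq_true] at h
  obtain ⟨p, hp, h⟩ := h
  simp only [Bool.or_eq_true, Bool.and_eq_true, beq_iff_eq] at h
  rcases h with ⟨rfl, rfl⟩ | ⟨rfl, rfl⟩
  · exact hout p hp
  · exact fun h => hout p hp (hs _ _ h)

/-- soundness of the checker -/
lemma check_sound {off : ℕ} {R : ℕ → ℕ → Prop} (hs : ∀ x y, R x y → R y x)
    (hnb : ∀ x, inW off x = true → ∀ y, R x y → y = nb x 0 ∨ y = nb x 1 ∨ y = nb x 2)
    (h2 : ∀ x, inW off x = true → ¬ (¬ R x (nb x 0) ∧ ¬ R x (nb x 1)) ∧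
      ¬ (¬ R x (nb x 0) ∧ ¬ R x (nb x 2)) ∧ ¬ (¬ R x (nb x 1) ∧ ¬ R x (nb x 2)))
    (h3 : ∀ x, inW off x = true → ¬ R x (nb x 0) ∨ ¬ R x (nb x 1) ∨ ¬ R x (nb x 2))
    (hcut : ∀ C : List ℕ, C ≠ [] → (∀ x ∈ C, inW off x = true) →
      ∃ x ∈ C, ∃ y, y ∉ C ∧ R x y)
    (t : Cert) : ∀ out : List (ℕ × ℕ), (∀ p ∈ out, ¬ R p.1 p.2) → check off out t = true →
      False := by
  induction t with
  | cut C =>
    intro out hout hc
    simp only [check, Bool.and_eq_true, List.all_eq_true, Bool.or_eq_true,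
      Bool.not_eq_true'] at hc
    obtain ⟨⟨hne, hW⟩, hC⟩ := hc
    obtain ⟨x, hx, y, hy, hxy⟩ := hcut C (by
      rintro rfl; simp at hne) hW
    have h4 := hC x hx
    have h5 : ∀ z, (C.contains z = true ∨ mem out x z = true) → y ≠ z := by
      rintro z hz rfl
      rcases hz with hz | hz
      · exact hy (by simpa using hz)
      · exact mem_spec hs hout hz hxy
    rcases hnb x (hW x hx) y hxy with h | h | h
    · exact h5 _ h4.1.1 h
    · exact h5 _ h4.1.2 h
    · exact h5 _ h4.2 h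
  | deg y =>
    intro out hout hc
    simp only [check, Bool.and_eq_true, Bool.or_eq_true] at hc
    obtain ⟨hW, hc⟩ := hc
    have h4 := h2 y hW
    rcases hc with (hc | hc) | hc
    · exact h4.1 ⟨mem_spec hs hout hc.1, mem_spec hs hout hc.2⟩
    · exact h4.2.1 ⟨mem_spec hs hout hc.1, mem_spec hs hout hc.2⟩
    · exact h4.2.2 ⟨mem_spec hs hout hc.1, mem_spec hs hout hc.2⟩
  | node v t0 t1 t2 ih0 ih1 ih2 =>
    intro out hout hc
    simp only [check, Bool.and_eq_true] at hc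
    obtain ⟨⟨⟨hW, hc0⟩, hc1⟩, hc2⟩ := hc
    rcases h3 v hW with h | h | h
    · refine ih0 _ ?_ hc0
      intro p hp
      rcases List.mem_cons.1 hp with rfl | hp
      · exact h
      · exact hout p hp
    · refine ih1 _ ?_ hc1
      intro p hp
      rcases List.mem_cons.1 hp with rfl | hp
      · exact h
      · exact hout p hp
    · refine ih2 _ ?_ hc2
      intro p hp
      rcases List.mem_cons.1 hp with rfl | hp
      · exact h
      · exact hout p hp

/-- certificate for the first half -/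
def cert0 : Cert :=
    (.node 0 (.node 9 (.node 2 (.node 12 (.deg 2) (.deg 7) (.cut [2, 7, 12])) (.deg 7) (.node 3
    (.node 8 (.deg 9) (.node 11 (.deg 2) (.deg 4) (.node 13 (.deg 15) (.deg 10) (.cut [5, 8, 9,
    10, 13, 15]))) (.deg 5)) (.node 14 (.deg 6) (.deg 0) (.node 8 (.deg 9) (.deg 4) (.node 11
    (.deg 2) (.deg 4) (.node 13 (.deg 15) (.deg 10) (.cut [2, 3, 4, 5, 7, 8, 9, 10, 11, 12, 13,
    15]))))) (.deg 12))) (.node 4 (.node 14 (.node 1 (.node 15 (.deg 13) (.node 3 (.deg 5) (.deg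
    6) (.cut [2, 7, 9, 10, 11, 12, 13, 15])) (.deg 11)) (.deg 6) (.node 13 (.node 5 (.node 2
    (.deg 11) (.node 12 (.deg 2) (.deg 7) (.deg 3)) (.node 7 (.deg 2) (.deg 9) (.deg 12))) (.deg
    15) (.deg 8)) (.deg 10) (.deg 1))) (.deg 0) (.deg 4)) (.deg 8) (.node 5 (.node 6 (.node 13
    (.node 11 (.cut [4, 5, 8, 11, 15]) (.deg 4) (.deg 15)) (.deg 10) (.deg 1)) (.deg 14) (.deg
    3)) (.node 11 (.node 7 (.deg 2) (.deg 9) (.node 3 (.deg 5) (.node 13 (.deg 15) (.deg 10)
    (.cut [2, 3, 4, 5, 7, 8, 9, 10, 11, 12, 13, 15])) (.deg 12))) (.deg 4) (.deg 15)) (.deg 8)))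
    (.deg 10)) (.node 4 (.node 2 (.deg 11) (.node 12 (.deg 2) (.deg 7) (.node 6 (.node 5 (.deg
    3) (.node 8 (.cut [3, 4, 5, 6, 8, 14]) (.deg 4) (.deg 5)) (.node 9 (.deg 7) (.deg 8) (.node
    13 (.cut [2, 3, 4, 5, 6, 7, 8, 9, 11, 12, 14, 15]) (.deg 10) (.deg 1)))) (.deg 14) (.deg
    3))) (.node 7 (.deg 2) (.node 8 (.deg 9) (.deg 4) (.node 3 (.deg 5) (.node 10 (.node 15
    (.deg 13) (.deg 5) (.deg 11)) (.deg 0) (.deg 9)) (.deg 12))) (.deg 12))) (.node 5 (.node 6
    (.node 9 (.node 10 (.node 12 (.node 11 (.deg 2) (.deg 4) (.cut [2, 3, 4, 6, 7, 11, 12, 14]))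
    (.deg 7) (.deg 3)) (.deg 0) (.deg 9)) (.deg 8) (.node 13 (.cut [2, 3, 4, 5, 6, 7, 8, 9, 11,
    12, 14, 15]) (.deg 10) (.deg 1))) (.deg 14) (.deg 3)) (.node 11 (.node 3 (.deg 5) (.node 12
    (.deg 2) (.node 9 (.deg 7) (.deg 8) (.cut [2, 3, 5, 7, 8, 9, 12])) (.deg 3)) (.node 6 (.node
    7 (.deg 2) (.cut [2, 7, 12]) (.deg 12)) (.deg 14) (.deg 3))) (.deg 4) (.deg 15)) (.deg 8))
    (.deg 14)) (.node 10 (.node 1 (.deg 13) (.node 14 (.deg 6) (.deg 0) (.node 3 (.node 8 (.node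
    15 (.deg 13) (.deg 5) (.node 2 (.deg 11) (.node 12 (.deg 2) (.deg 7) (.deg 3)) (.node 7
    (.deg 2) (.deg 9) (.deg 12)))) (.deg 4) (.deg 5)) (.deg 6) (.node 2 (.node 7 (.deg 2) (.cut
    [2, 7, 12]) (.deg 12)) (.node 9 (.deg 7) (.node 5 (.deg 3) (.node 11 (.deg 2) (.deg 4) (.deg
    15)) (.deg 8)) (.deg 10)) (.deg 12)))) (.cut [0, 1, 2, 3, 4, 5, 6, 7, 8, 9, 10, 11, 12, 13,
    14, 15])) (.deg 0) (.node 7 (.node 12 (.deg 2) (.deg 7) (.node 5 (.deg 3) (.node 8 (.deg 9)
    (.node 11 (.deg 2) (.deg 4) (.deg 15)) (.deg 5)) (.node 4 (.node 14 (.node 15 (.node 1 (.deg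
    13) (.deg 6) (.cut [0, 1, 2, 3, 4, 5, 6, 7, 8, 9, 10, 11, 12, 13, 14, 15])) (.deg 5) (.deg
    11)) (.deg 0) (.deg 4)) (.deg 8) (.node 6 (.node 11 (.deg 2) (.deg 4) (.cut [2, 4, 7, 8, 9,
    11, 12])) (.deg 14) (.deg 3))))) (.deg 9) (.node 2 (.node 3 (.node 8 (.deg 9) (.node 14
    (.node 15 (.node 1 (.deg 13) (.deg 6) (.cut [0, 1, 2, 3, 4, 5, 6, 7, 8, 9, 10, 11, 12, 13,
    14, 15])) (.deg 5) (.deg 11)) (.deg 0) (.deg 4)) (.deg 5)) (.node 14 (.deg 6) (.deg 0)
    (.node 8 (.deg 9) (.deg 4) (.node 15 (.cut [2, 3, 4, 5, 7, 8, 9, 11, 12, 15]) (.deg 5) (.deg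
    11)))) (.deg 12)) (.deg 7) (.deg 12)))))

/-- certificate for the second half -/
def cert1 : Cert :=
    (.node 16 (.node 25 (.node 18 (.node 28 (.deg 18) (.deg 23) (.cut [18, 23, 28])) (.deg 23)
    (.node 19 (.node 24 (.deg 25) (.node 27 (.deg 18) (.deg 20) (.node 29 (.deg 31) (.deg 26)
    (.cut [21, 24, 25, 26, 29, 31]))) (.deg 21)) (.node 30 (.deg 22) (.deg 16) (.node 24 (.deg
    25) (.deg 20) (.node 27 (.deg 18) (.deg 20) (.node 29 (.deg 31) (.deg 26) (.cut [18, 19, 20,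
    21, 23, 24, 25, 26, 27, 28, 29, 31]))))) (.deg 28))) (.node 20 (.node 30 (.node 17 (.node 31
    (.deg 29) (.node 19 (.deg 21) (.deg 22) (.cut [18, 23, 25, 26, 27, 28, 29, 31])) (.deg 27))
    (.deg 22) (.node 29 (.node 21 (.node 18 (.deg 27) (.node 28 (.deg 18) (.deg 23) (.deg 19))
    (.node 23 (.deg 18) (.deg 25) (.deg 28))) (.deg 31) (.deg 24)) (.deg 26) (.deg 17))) (.deg
    16) (.deg 20)) (.deg 24) (.node 21 (.node 22 (.node 29 (.node 27 (.cut [20, 21, 24, 27, 31])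
    (.deg 20) (.deg 31)) (.deg 26) (.deg 17)) (.deg 30) (.deg 19)) (.node 27 (.node 23 (.deg 18)
    (.deg 25) (.node 19 (.deg 21) (.node 29 (.deg 31) (.deg 26) (.cut [18, 19, 20, 21, 23, 24,
    25, 26, 27, 28, 29, 31])) (.deg 28))) (.deg 20) (.deg 31)) (.deg 24))) (.deg 26)) (.node 20
    (.node 18 (.deg 27) (.node 28 (.deg 18) (.deg 23) (.node 22 (.node 21 (.deg 19) (.node 24
    (.cut [19, 20, 21, 22, 24, 30]) (.deg 20) (.deg 21)) (.node 25 (.deg 23) (.deg 24) (.node 29
    (.cut [18, 19, 20, 21, 22, 23, 24, 25, 27, 28, 30, 31]) (.deg 26) (.deg 17)))) (.deg 30)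
    (.deg 19))) (.node 23 (.deg 18) (.node 24 (.deg 25) (.deg 20) (.node 19 (.deg 21) (.node 26
    (.node 31 (.deg 29) (.deg 21) (.deg 27)) (.deg 16) (.deg 25)) (.deg 28))) (.deg 28))) (.node
    21 (.node 22 (.node 25 (.node 26 (.node 28 (.node 27 (.deg 18) (.deg 20) (.cut [18, 19, 20,
    22, 23, 27, 28, 30])) (.deg 23) (.deg 19)) (.deg 16) (.deg 25)) (.deg 24) (.node 29 (.cut
    [18, 19, 20, 21, 22, 23, 24, 25, 27, 28, 30, 31]) (.deg 26) (.deg 17))) (.deg 30) (.deg 19))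
    (.node 27 (.node 19 (.deg 21) (.node 28 (.deg 18) (.node 25 (.deg 23) (.deg 24) (.cut [18,
    19, 21, 23, 24, 25, 28])) (.deg 19)) (.node 22 (.node 23 (.deg 18) (.cut [18, 23, 28]) (.deg
    28)) (.deg 30) (.deg 19))) (.deg 20) (.deg 31)) (.deg 24)) (.deg 30)) (.node 26 (.node 17
    (.deg 29) (.node 30 (.deg 22) (.deg 16) (.node 19 (.node 24 (.node 31 (.deg 29) (.deg 21)
    (.node 18 (.deg 27) (.node 28 (.deg 18) (.deg 23) (.deg 19)) (.node 23 (.deg 18) (.deg 25)
    (.deg 28)))) (.deg 20) (.deg 21)) (.deg 22) (.node 18 (.node 23 (.deg 18) (.cut [18, 23,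
    28]) (.deg 28)) (.node 25 (.deg 23) (.node 21 (.deg 19) (.node 27 (.deg 18) (.deg 20) (.deg
    31)) (.deg 24)) (.deg 26)) (.deg 28)))) (.cut [16, 17, 18, 19, 20, 21, 22, 23, 24, 25, 26,
    27, 28, 29, 30, 31])) (.deg 16) (.node 23 (.node 28 (.deg 18) (.deg 23) (.node 21 (.deg 19)
    (.node 24 (.deg 25) (.node 27 (.deg 18) (.deg 20) (.deg 31)) (.deg 21)) (.node 20 (.node 30
    (.node 31 (.node 17 (.deg 29) (.deg 22) (.cut [16, 17, 18, 19, 20, 21, 22, 23, 24, 25, 26,
    27, 28, 29, 30, 31])) (.deg 21) (.deg 27)) (.deg 16) (.deg 20)) (.deg 24) (.node 22 (.node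
    27 (.deg 18) (.deg 20) (.cut [18, 20, 23, 24, 25, 27, 28])) (.deg 30) (.deg 19))))) (.deg
    25) (.node 18 (.node 19 (.node 24 (.deg 25) (.node 30 (.node 31 (.node 17 (.deg 29) (.deg
    22) (.cut [16, 17, 18, 19, 20, 21, 22, 23, 24, 25, 26, 27, 28, 29, 30, 31])) (.deg 21) (.deg
    27)) (.deg 16) (.deg 20)) (.deg 21)) (.node 30 (.deg 22) (.deg 16) (.node 24 (.deg 25) (.deg
    20) (.node 31 (.cut [18, 19, 20, 21, 23, 24, 25, 27, 28, 31]) (.deg 21) (.deg 27)))) (.deg
    28)) (.deg 23) (.deg 28)))))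

lemma check0 : check 0 [] cert0 = true := by decide +kernel

lemma check1 : check 16 [] cert1 = true := by decide +kernel

/-- Main non-hamiltonicity lemma. `U` is the vertex set of `G` or of `G - v`, seen inside `ℕ`. -/
lemma no_ham {U : Type} [Finite U] (ι : U → ℕ) (hι : Function.Injective ι) (off : ℕ)
    (hoff : off + 16 ≤ 32) (t : Cert) (ht : check off [] t = true)
    (hW : ∀ x, inW off x = true → ∃ u, ι u = x) (hU : ∃ u, inW off (ι u) = false)
    (H : SimpleGraph U) (hH : ∀ u u', H.Adj u u' → adjB (ι u) (ι u') = true)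
    (hc : H.Connected) (hd : ∀ u, deg H u = 2) : False := by
  classical
  let R : ℕ → ℕ → Prop := fun x y => ∃ u u', ι u = x ∧ ι u' = y ∧ H.Adj u u'
  have hsub : ∀ x y, R x y → y = nb x 0 ∨ y = nb x 1 ∨ y = nb x 2 := by
    rintro x y ⟨u, u', rfl, rfl, h⟩
    have := hH u u' h
    unfold adjB at this
    simp only [Bool.or_eq_true, beq_iff_eq, or_assoc] at this
    rcases this with h | h | h
    · exact Or.inl h.symm
    · exact Or.inr (Or.inl h.symm)
    · exact Or.inr (Or.inr h.symm)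
  -- the set of neighbours of `x`
  have hcard : ∀ x, inW off x = true → {y | R x y}.ncard = 2 := by
    intro x hx
    obtain ⟨u, rfl⟩ := hW x hx
    have : {y | R (ι u) y} = ι '' H.neighborSet u := by
      ext y
      simp only [R, Set.mem_ofPred_eq, Set.mem_image, SimpleGraph.mem_neighborSet]
      constructor
      · rintro ⟨u1, u2, h1, rfl, h⟩
        rw [hι h1] at h
        exact ⟨u2, h, rfl⟩
      · rintro ⟨u2, h, rfl⟩
        exact ⟨u, u2, rfl, rfl, h⟩
    rw [this, Set.ncard_image_of_injective _ hι]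
    exact hd u
  have hx32 : ∀ x, inW off x = true → x < 32 := by
    intro x hx
    simp only [inW, Bool.and_eq_true, decide_eq_true_eq] at hx
    omega
  have key : ∀ x, inW off x = true → ∀ a b : ℕ, (∀ y, R x y → y = a ∨ y = b) →
      R x a ∧ R x b := by
    intro x hx a b hab
    have hsubset : {y | R x y} ⊆ {a, b} := fun y hy => hab y hy
    have h1 := hcard x hx
    have h2 : ({a, b} : Set ℕ).ncard ≤ 2 := Set.ncard_insert_le _ _ |>.trans (by simp)
    have heq : {y | R x y} = {a, b} :=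
      Set.eq_of_subset_of_ncard_le hsubset (by rw [h1]; exact h2) (Set.toFinite _)
    constructor
    · have : a ∈ {y | R x y} := by rw [heq]; simp
      exact this
    · have : b ∈ {y | R x y} := by rw [heq]; simp
      exact this
  have key1 : ∀ x, inW off x = true → ∀ a : ℕ, ¬ (∀ y, R x y → y = a) := by
    intro x hx a ha
    have hsubset : {y | R x y} ⊆ {a} := fun y hy => ha y hy
    have h1 := hcard x hx
    have h2 := Set.ncard_le_ncard hsubset (Set.toFinite _)
    rw [h1, Set.ncard_singleton] at h2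
    omega
  refine check_sound (off := off) (R := R) ?_ (fun x _ => hsub x) ?_ ?_ ?_ t [] (by simp) ht
  · rintro x y ⟨u, u', h1, h2, h⟩
    exact ⟨u', u, h2, h1, h.symm⟩
  · intro x hx
    refine ⟨?_, ?_, ?_⟩
    · rintro ⟨ha, hb⟩
      apply key1 x hx (nb x 2)
      intro y hy
      rcases hsub x y hy with rfl | rfl | rfl
      · exact absurd hy ha
      · exact absurd hy hb
      · rfl
    · rintro ⟨ha, hb⟩
      apply key1 x hx (nb x 1)
      intro y hy
      rcases hsub x y hy with rfl | rfl | rfl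
      · exact absurd hy ha
      · rfl
      · exact absurd hy hb
    · rintro ⟨ha, hb⟩
      apply key1 x hx (nb x 0)
      intro y hy
      rcases hsub x y hy with rfl | rfl | rfl
      · rfl
      · exact absurd hy ha
      · exact absurd hy hb
  · intro x hx
    by_contra hcon
    push Not at hcon
    obtain ⟨h0, h1, h2⟩ := hcon
    have hne := nb_ne x (hx32 x hx)
    have h4 : ({nb x 0, nb x 1, nb x 2} : Set ℕ).ncard = 3 := by
      rw [Set.ncard_insert_of_notMem, Set.ncard_pair hne.2.2]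
      simp only [Set.mem_insert_iff, Set.mem_singleton_iff]
      push Not
      exact ⟨hne.1, hne.2.1⟩
    have h5 : ({nb x 0, nb x 1, nb x 2} : Set ℕ) ⊆ {y | R x y} := by
      intro y hy
      rcases hy with rfl | rfl | rfl
      · exact h0
      · exact h1
      · exact h2
    have h6 := hcard x hx
    have h7 := Set.ncard_le_ncard h5 (Set.finite_of_ncard_ne_zero (by rw [h6]; norm_num))
    rw [h4, h6] at h7
    omega
  · intro C hC hCW
    obtain ⟨x, hx⟩ := List.exists_mem_of_ne_nil C hC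
    obtain ⟨u, rfl⟩ := hW x (hCW x hx)
    obtain ⟨u', hu'⟩ := hU
    obtain ⟨p⟩ := hc.preconnected u u'
    obtain ⟨d, _, hd1, hd2⟩ := p.exists_boundary_dart {z | ι z ∈ C} hx (by
      intro h
      have := hCW _ h
      rw [hu'] at this
      exact absurd this (by decide))
    exact ⟨ι d.fst, hd1, ι d.snd, hd2, d.fst, d.snd, rfl, rfl, d.adj⟩

lemma inW_iff {off x : ℕ} : inW off x = true ↔ off ≤ x ∧ x < off + 16 := by
  simp [inW]

lemma inW_false {off x : ℕ} (h : ¬ (off ≤ x ∧ x < off + 16)) : inW off x = false := by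
  rw [← inW_iff] at h
  simpa using h

lemma G_not_ham : ¬ Hamiltonian G := by
  rintro ⟨H, hle, hc, hd⟩
  refine no_ham (U := Fin 32) (fun u => u.val) Fin.val_injective 0 (by norm_num) cert0 check0 ?_ ?_
    H (fun u u' h => hle h) hc hd
  · intro x hx
    rw [inW_iff] at hx
    exact ⟨⟨x, by omega⟩, rfl⟩
  · exact ⟨⟨20, by norm_num⟩, by decide⟩

lemma del_not_ham (v : Fin 32) : ¬ Hamiltonian (del G v) := by
  rintro ⟨H, hle, hc, hd⟩
  have hinj : Function.Injective (fun u : {w : Fin 32 // w ≠ v} => u.1.val) := by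
    intro a b h
    exact Subtype.ext (Fin.ext h)
  by_cases hv : v.val < 16
  · refine no_ham (U := {w : Fin 32 // w ≠ v}) (fun u => u.1.val) hinj 16 (by norm_num)
      cert1 check1 ?_ ?_ H (fun u u' h => hle h) hc hd
    · intro x hx
      rw [inW_iff] at hx
      refine ⟨⟨⟨x, by omega⟩, ?_⟩, rfl⟩
      intro h
      rw [Fin.ext_iff] at h
      simp only at h
      omega
    · by_cases h0 : v.val = 0
      · refine ⟨⟨⟨1, by norm_num⟩, ?_⟩, inW_false (by norm_num)⟩
        intro h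
        rw [Fin.ext_iff] at h
        simp only at h
        omega
      · refine ⟨⟨⟨0, by norm_num⟩, ?_⟩, inW_false (by norm_num)⟩
        intro h
        rw [Fin.ext_iff] at h
        simp only at h
        omega
  · refine no_ham (U := {w : Fin 32 // w ≠ v}) (fun u => u.1.val) hinj 0 (by norm_num)
      cert0 check0 ?_ ?_ H (fun u u' h => hle h) hc hd
    · intro x hx
      rw [inW_iff] at hx
      refine ⟨⟨⟨x, by omega⟩, ?_⟩, rfl⟩
      intro h
      rw [Fin.ext_iff] at h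
      simp only at h
      omega
    · by_cases h0 : v.val = 16
      · refine ⟨⟨⟨17, by norm_num⟩, ?_⟩, inW_false (by norm_num)⟩
        intro h
        rw [Fin.ext_iff] at h
        simp only at h
        omega
      · refine ⟨⟨⟨16, by norm_num⟩, ?_⟩, inW_false (by norm_num)⟩
        intro h
        rw [Fin.ext_iff] at h
        simp only at h
        omega

/-! ## Hamiltonian paths -/

/-- a hamiltonian path of `G` from `2` to `18` -/
def path0 : List ℕ :=
  [2, 11, 15, 13, 1, 6, 14, 4, 8, 5, 3, 12, 7, 9, 10, 0, 16, 26, 25, 23, 28, 19, 21, 24, 20, 30, 22, 17, 29, 31, 27, 18]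

/-- hamiltonian paths of `G - v` -/
def pathTab : List (List ℕ) :=
  [[2, 11, 15, 13, 10, 9, 7, 12, 3, 5, 8, 4, 14, 6, 1, 17, 22, 30, 16, 26, 29, 31, 21, 19, 28,
      23, 25, 24, 20, 27, 18],
    [2, 11, 4, 8, 5, 15, 13, 10, 9, 7, 12, 3, 6, 14, 0, 16, 26, 25, 23, 28, 19, 21, 24, 20, 30,
      22, 17, 29, 31, 27, 18],
    [11, 15, 13, 1, 6, 14, 4, 8, 5, 3, 12, 7, 9, 10, 0, 16, 26, 25, 23, 28, 19, 21, 24, 20, 30,
      22, 17, 29, 31, 27, 18],
    [2, 12, 7, 9, 8, 5, 15, 11, 4, 14, 6, 1, 13, 10, 0, 16, 26, 25, 23, 28, 19, 21, 24, 20, 30,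
      22, 17, 29, 31, 27, 18],
    [2, 11, 15, 5, 8, 9, 7, 12, 3, 6, 14, 0, 10, 13, 1, 17, 22, 30, 16, 26, 29, 31, 21, 19, 28,
      23, 25, 24, 20, 27, 18],
    [2, 11, 15, 13, 10, 0, 14, 4, 8, 9, 7, 12, 3, 6, 1, 17, 22, 30, 16, 26, 29, 31, 21, 19, 28,
      23, 25, 24, 20, 27, 18],
    [2, 11, 15, 5, 3, 12, 7, 9, 8, 4, 14, 0, 10, 13, 1, 17, 22, 30, 16, 26, 29, 31, 21, 19, 28,
      23, 25, 24, 20, 27, 18],
    [2, 12, 3, 5, 15, 11, 4, 8, 9, 10, 13, 1, 6, 14, 0, 16, 26, 25, 23, 28, 19, 21, 24, 20, 30,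
      22, 17, 29, 31, 27, 18],
    [2, 11, 4, 14, 6, 1, 13, 15, 5, 3, 12, 7, 9, 10, 0, 16, 26, 25, 23, 28, 19, 21, 24, 20, 30,
      22, 17, 29, 31, 27, 18],
    [2, 7, 12, 3, 5, 8, 4, 11, 15, 13, 10, 0, 14, 6, 1, 17, 22, 30, 16, 26, 29, 31, 21, 19, 28,
      23, 25, 24, 20, 27, 18],
    [2, 11, 4, 8, 9, 7, 12, 3, 5, 15, 13, 1, 6, 14, 0, 16, 26, 25, 23, 28, 19, 21, 24, 20, 30,
      22, 17, 29, 31, 27, 18],
    [2, 7, 12, 3, 5, 15, 13, 1, 6, 14, 4, 8, 9, 10, 0, 16, 26, 25, 23, 28, 19, 21, 24, 20, 30,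
      22, 17, 29, 31, 27, 18],
    [2, 7, 9, 8, 4, 11, 15, 5, 3, 6, 14, 0, 10, 13, 1, 17, 22, 30, 16, 26, 29, 31, 21, 19, 28,
      23, 25, 24, 20, 27, 18],
    [2, 11, 15, 5, 8, 4, 14, 0, 10, 9, 7, 12, 3, 6, 1, 17, 22, 30, 16, 26, 29, 31, 21, 19, 28,
      23, 25, 24, 20, 27, 18],
    [2, 11, 4, 8, 5, 15, 13, 1, 6, 3, 12, 7, 9, 10, 0, 16, 26, 25, 23, 28, 19, 21, 24, 20, 30,
      22, 17, 29, 31, 27, 18],
    [2, 11, 4, 8, 5, 3, 12, 7, 9, 10, 13, 1, 6, 14, 0, 16, 26, 25, 23, 28, 19, 21, 24, 20, 30,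
      22, 17, 29, 31, 27, 18],
    [2, 11, 4, 8, 9, 7, 12, 3, 5, 15, 13, 10, 0, 14, 6, 1, 17, 22, 30, 20, 24, 21, 19, 28, 23,
      25, 26, 29, 31, 27, 18],
    [2, 11, 15, 13, 1, 6, 14, 4, 8, 5, 3, 12, 7, 9, 10, 0, 16, 30, 22, 19, 28, 23, 25, 26, 29,
      31, 21, 24, 20, 27, 18],
    [2, 11, 15, 13, 1, 6, 14, 4, 8, 5, 3, 12, 7, 9, 10, 0, 16, 26, 25, 23, 28, 19, 21, 24, 20,
      30, 22, 17, 29, 31, 27],
    [2, 11, 15, 13, 1, 6, 14, 4, 8, 5, 3, 12, 7, 9, 10, 0, 16, 26, 29, 17, 22, 30, 20, 27, 31,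
      21, 24, 25, 23, 28, 18],
    [2, 11, 4, 8, 9, 7, 12, 3, 5, 15, 13, 10, 0, 14, 6, 1, 17, 29, 26, 16, 30, 22, 19, 28, 23,
      25, 24, 21, 31, 27, 18],
    [2, 11, 4, 8, 9, 7, 12, 3, 5, 15, 13, 10, 0, 14, 6, 1, 17, 22, 19, 28, 23, 25, 24, 20, 30,
      16, 26, 29, 31, 27, 18],
    [2, 11, 4, 8, 9, 7, 12, 3, 5, 15, 13, 10, 0, 14, 6, 1, 17, 29, 26, 16, 30, 20, 24, 25, 23,
      28, 19, 21, 31, 27, 18],
    [2, 11, 15, 13, 1, 6, 14, 4, 8, 5, 3, 12, 7, 9, 10, 0, 16, 30, 22, 17, 29, 26, 25, 24, 20,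
      27, 31, 21, 19, 28, 18],
    [2, 11, 15, 13, 1, 6, 14, 4, 8, 5, 3, 12, 7, 9, 10, 0, 16, 26, 25, 23, 28, 19, 21, 31, 29,
      17, 22, 30, 20, 27, 18],
    [2, 11, 4, 8, 9, 7, 12, 3, 5, 15, 13, 10, 0, 14, 6, 1, 17, 22, 30, 16, 26, 29, 31, 27, 20,
      24, 21, 19, 28, 23, 18],
    [2, 11, 15, 13, 1, 6, 14, 4, 8, 5, 3, 12, 7, 9, 10, 0, 16, 30, 22, 17, 29, 31, 21, 19, 28,
      23, 25, 24, 20, 27, 18],
    [2, 11, 15, 13, 1, 6, 14, 4, 8, 5, 3, 12, 7, 9, 10, 0, 16, 26, 25, 24, 20, 30, 22, 17, 29,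
      31, 21, 19, 28, 23, 18],
    [2, 11, 4, 8, 9, 7, 12, 3, 5, 15, 13, 10, 0, 14, 6, 1, 17, 29, 26, 16, 30, 22, 19, 21, 31,
      27, 20, 24, 25, 23, 18],
    [2, 11, 4, 8, 9, 7, 12, 3, 5, 15, 13, 10, 0, 14, 6, 1, 17, 22, 19, 28, 23, 25, 26, 16, 30,
      20, 24, 21, 31, 27, 18],
    [2, 11, 15, 13, 1, 6, 14, 4, 8, 5, 3, 12, 7, 9, 10, 0, 16, 26, 25, 23, 28, 19, 22, 17, 29,
      31, 21, 24, 20, 27, 18],
    [2, 11, 15, 13, 1, 6, 14, 4, 8, 5, 3, 12, 7, 9, 10, 0, 16, 30, 22, 17, 29, 26, 25, 23, 28,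
      19, 21, 24, 20, 27, 18]]

/-- the `i`-th vertex of the path of `G - v` -/
def pv (v i : ℕ) : ℕ := (pathTab.getD v []).getD i 0

lemma pv_lt : ∀ v < 32, ∀ i < 31, pv v i < 32 := by decide +kernel

lemma pv_ne : ∀ v < 32, ∀ i < 31, pv v i ≠ v := by decide +kernel

lemma pv_inj : ∀ v < 32, ∀ i < 31, ∀ j < i, pv v i ≠ pv v j := by decide +kernel

lemma pv_adj : ∀ v < 32, ∀ i < 30, adjB (pv v i) (pv v (i + 1)) = true := by decide +kernel

lemma pv_first : ∀ v < 32, pv v 0 = if v = 2 then 11 else 2 := by decide +kernel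

lemma pv_last : ∀ v < 32, pv v 30 = if v = 18 then 27 else 18 := by decide +kernel

lemma p0_lt : ∀ i < 32, path0.getD i 0 < 32 := by decide +kernel

lemma p0_inj : ∀ i < 32, ∀ j < i, path0.getD i 0 ≠ path0.getD j 0 := by decide +kernel

lemma p0_adj : ∀ i < 31, adjB (path0.getD i 0) (path0.getD (i + 1) 0) = true := by decide +kernel

/-- enumeration of `G` along the path. -/
noncomputable def σ0 : Fin (30 + 2) ≃ Fin 32 :=
  Equiv.ofBijective (fun i => ⟨path0.getD i.val 0, p0_lt _ i.isLt⟩) (by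
    have hinj : Function.Injective
        (fun i : Fin (30 + 2) => (⟨path0.getD i.val 0, p0_lt _ i.isLt⟩ : Fin 32)) := by
      intro i j h
      simp only [Fin.mk.injEq] at h
      rcases lt_trichotomy i.val j.val with h1 | h1 | h1
      · exact absurd h.symm (p0_inj _ j.isLt _ h1)
      · exact Fin.ext h1
      · exact absurd h (p0_inj _ i.isLt _ h1)
    exact (Fintype.bijective_iff_injective_and_card _).2 ⟨hinj, by simp⟩)

/-- enumeration of `G - v` along the path. -/
noncomputable def σv (v : Fin 32) : Fin (29 + 2) ≃ {w : Fin 32 // w ≠ v} :=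
  Equiv.ofBijective (fun i => ⟨⟨pv v.val i.val, pv_lt _ v.isLt _ i.isLt⟩, by
      intro h
      rw [Fin.ext_iff] at h
      exact pv_ne _ v.isLt _ i.isLt h⟩) (by
    refine (Fintype.bijective_iff_injective_and_card _).2 ⟨?_, ?_⟩
    · intro i j h
      simp only [Subtype.mk.injEq, Fin.mk.injEq] at h
      rcases lt_trichotomy i.val j.val with h1 | h1 | h1
      · exact absurd h.symm (pv_inj _ v.isLt _ j.isLt _ h1)
      · exact Fin.ext h1
      · exact absurd h (pv_inj _ v.isLt _ i.isLt _ h1)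
    · rw [Fintype.card_subtype_compl (fun x => x = v)]
      simp)

lemma σ0_val (i : Fin (30 + 2)) : (σ0 i).val = path0.getD i.val 0 := rfl

lemma σv_val (v : Fin 32) (i : Fin (29 + 2)) : (σv v i).1.val = pv v.val i.val := rfl

/-- hamiltonian path of `G` -/
noncomputable def S0 : SimpleGraph (Fin 32) := P σ0

/-- hamiltonian path of `G - v` -/
noncomputable def Sv (v : Fin 32) : SimpleGraph {w : Fin 32 // w ≠ v} := P (σv v)

lemma S0_le : S0 ≤ G := by
  apply P_le
  intro i j hij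
  change adjB (σ0 i).val (σ0 j).val = true
  rw [σ0_val, σ0_val, ← hij]
  exact p0_adj _ (by have := j.isLt; omega)

lemma Sv_le (v : Fin 32) : Sv v ≤ del G v := by
  apply P_le
  intro i j hij
  change adjB (σv v i).1.val (σv v j).1.val = true
  rw [σv_val, σv_val, ← hij]
  exact pv_adj _ v.isLt _ (by have := j.isLt; omega)

lemma deg_S0 (x : Fin 32) : deg S0 x = if x.val = 2 ∨ x.val = 18 then 1 else 2 := by
  unfold S0
  have h : (x = σ0 0 ∨ x = σ0 (Fin.last (30 + 1))) ↔ (x.val = 2 ∨ x.val = 18) := by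
    rw [Fin.ext_iff, Fin.ext_iff, σ0_val, σ0_val]
    exact Iff.rfl
  split_ifs with hx
  · exact deg_P_end _ (h.2 hx)
  · exact deg_P_mid _ (fun h' => hx (h.1 h'))

lemma deg_Sv (v : Fin 32) (x : {w : Fin 32 // w ≠ v}) : deg (Sv v) x =
    if x.1.val = (if v.val = 2 then 11 else 2) ∨ x.1.val = (if v.val = 18 then 27 else 18)
      then 1 else 2 := by
  unfold Sv
  have h : (x = σv v 0 ∨ x = σv v (Fin.last (29 + 1))) ↔
      (x.1.val = (if v.val = 2 then 11 else 2) ∨ x.1.val = (if v.val = 18 then 27 else 18)) := by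
    rw [Subtype.ext_iff, Subtype.ext_iff, Fin.ext_iff, Fin.ext_iff, σv_val, σv_val]
    have h1 : pv v.val (0 : Fin (29 + 2)).val = if v.val = 2 then 11 else 2 :=
      pv_first _ v.isLt
    have h2 : pv v.val (Fin.last (29 + 1)).val = if v.val = 18 then 27 else 18 :=
      pv_last _ v.isLt
    rw [h1, h2]
  by_cases hx : x.1.val = (if v.val = 2 then 11 else 2) ∨ x.1.val = (if v.val = 18 then 27 else 18)
  · rw [if_pos hx]
    exact deg_P_end _ (h.2 hx)
  · rw [if_neg hx]
    exact deg_P_mid _ (fun h' => hx (h.1 h'))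

instance (v : Fin 32) : Nontrivial {w : Fin 32 // w ≠ v} := by
  rw [← Fintype.one_lt_card_iff_nontrivial, Fintype.card_subtype_compl (fun x => x = v)]
  simp

lemma ml_G : ml G = 2 := ml_eq_two G_not_ham ⟨S0_le, P_isTree σ0⟩ (leaves_P σ0)

lemma ml_del (v : Fin 32) : ml (del G v) = 2 :=
  ml_eq_two (del_not_ham v) ⟨Sv_le v, P_isTree (σv v)⟩ (leaves_P (σv v))

lemma S0_ml : IsMlSubgraph G S0 :=
  Or.inr ⟨G_not_ham, ⟨S0_le, P_isTree σ0⟩, by rw [ml_G]; exact leaves_P σ0⟩

lemma Sv_ml (v : Fin 32) : IsMlSubgraph (del G v) (Sv v) :=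
  Or.inr ⟨del_not_ham v, ⟨Sv_le v, P_isTree (σv v)⟩, by rw [ml_del]; exact leaves_P (σv v)⟩

lemma transition_le (v : Fin 32) : transitionCost v S0 (Sv v) ≤ 1 := by
  unfold transitionCost
  rw [Set.ncard_le_one_iff_subsingleton]
  intro x hx y hy
  rw [Set.mem_ofPred_eq, deg_S0, deg_Sv] at hx hy
  have hxv : x.1.val ≠ v.val := fun h => x.2 (Fin.ext h)
  have hyv : y.1.val ≠ v.val := fun h => y.2 (Fin.ext h)
  apply Subtype.ext
  apply Fin.ext
  by_cases h2 : v.val = 2
  · have h18 : v.val ≠ 18 := by omega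
    simp only [h2, if_true] at hx hy hxv hyv
    simp only [show (2 : ℕ) ≠ 18 by norm_num, if_false] at hx hy
    by_cases hx1 : x.1.val = 18
    · simp [hx1] at hx
    · by_cases hy1 : y.1.val = 18
      · simp [hy1] at hy
      · have hx2 : x.1.val = 11 := by
          by_contra h; simp [hx1, h, hxv] at hx
        have hy2 : y.1.val = 11 := by
          by_contra h; simp [hy1, h, hyv] at hy
        rw [hx2, hy2]
  · by_cases h18 : v.val = 18
    · simp only [h18, if_true] at hx hy hxv hyv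
      simp only [show (18 : ℕ) ≠ 2 by norm_num, if_false] at hx hy
      by_cases hx1 : x.1.val = 2
      · simp [hx1] at hx
      · by_cases hy1 : y.1.val = 2
        · simp [hy1] at hy
        · have hx2 : x.1.val = 27 := by
            by_contra h; simp [hx1, h, hxv] at hx
          have hy2 : y.1.val = 27 := by
            by_contra h; simp [hy1, h, hyv] at hy
          rw [hx2, hy2]
    · simp [h2, h18] at hx

lemma faultCostOf_S0 : faultCostOf G S0 ≤ 1 := by
  unfold faultCostOf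
  apply ciSup_le
  intro v
  refine (Nat.sInf_le ?_).trans (transition_le v)
  exact ⟨Sv v, Sv_ml v, rfl⟩

/-- lower bound -/
lemma one_le_transition (S : SimpleGraph (Fin 32)) (hS : S.IsTree) (v : Fin 32)
    (hv : deg S v = 1) (T : SimpleGraph {w : Fin 32 // w ≠ v}) (hT : T.IsTree) :
    1 ≤ transitionCost v S T := by
  by_contra hcon
  have h0 : transitionCost v S T = 0 := by omega
  unfold transitionCost at h0
  rw [Set.ncard_eq_zero] at h0
  have h1 : ∀ w : {w : Fin 32 // w ≠ v}, deg S w.1 = deg T w := by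
    intro w
    by_contra h
    have : w ∈ ({w : {w : Fin 32 // w ≠ v} | deg S w.1 ≠ deg T w} : Set _) := h
    rw [h0] at this
    exact this
  have h2 := tree_sum_deg hS
  have h3 := tree_sum_deg hT
  rw [Fintype.card_subtype_compl (fun x => x = v)] at h3
  simp only [Fintype.card_fin, Fintype.card_unique] at h2 h3
  have h4 : ∑ w, deg S w = deg S v + ∑ w : {w : Fin 32 // w ≠ v}, deg S w.1 := by
    rw [← Finset.add_sum_erase _ _ (Finset.mem_univ v)]
    congr 1
    apply Finset.sum_subtype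
    simp
  have h6 : ∑ w : {w : Fin 32 // w ≠ v}, deg S w.1 = ∑ w : {w : Fin 32 // w ≠ v}, deg T w :=
    Finset.sum_congr rfl (fun w _ => h1 w)
  have h7 : ∑ w : {w : Fin 32 // w ≠ v}, deg T w = 60 := by
    convert (show (60 : ℕ) = 60 from rfl) using 1
    have h8 := h3
    omega
  rw [h4, hv, h6, h7] at h2
  omega

lemma one_le_faultCostOf (S : SimpleGraph (Fin 32)) (hS : IsMlSubgraph G S) :
    1 ≤ faultCostOf G S := by
  rcases hS with ⟨h, _⟩ | ⟨_, hS, _⟩
  · exact absurd h G_not_ham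
  have h2 := two_le_leaves hS.2
  have hne : {v | deg S v = 1}.Nonempty := by
    apply Set.nonempty_of_ncard_ne_zero
    unfold leaves at h2
    omega
  obtain ⟨v, hv⟩ := hne
  have hb : 1 ≤ sInf {t | ∃ Sv, IsMlSubgraph (del G v) Sv ∧ transitionCost v S Sv = t} := by
    refine le_csInf ⟨_, Sv v, Sv_ml v, rfl⟩ ?_
    rintro _ ⟨T, hT, rfl⟩
    rcases hT with ⟨h, _⟩ | ⟨_, hT, _⟩
    · exact absurd h (del_not_ham v)
    · exact one_le_transition S hS.2 v hv T hT.2
  refine hb.trans ?_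
  unfold faultCostOf
  exact le_ciSup (f := fun v => sInf {t | ∃ Sv, IsMlSubgraph (del G v) Sv ∧
    transitionCost v S Sv = t}) (Set.finite_range _).bddAbove v

lemma faultCost_G : faultCost G = 1 := by
  unfold faultCost
  apply le_antisymm
  · refine (Nat.sInf_le ?_).trans faultCostOf_S0
    exact ⟨S0, S0_ml, rfl⟩
  · refine le_csInf ⟨_, S0, S0_ml, rfl⟩ ?_
    rintro _ ⟨S, hS, rfl⟩
    exact one_le_faultCostOf S hS

lemma G_twoConnected : TwoConnected G := by
  refine ⟨by simp, ?_, ?_⟩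
  · exact (P_connected σ0).mono S0_le
  · intro v
    exact (P_connected (σv v)).mono (Sv_le v)

/-- There is a cubic 2-connected (finite, simple) graph with fault cost `1`, on 32 vertices. -/
theorem result : ∃ G : SimpleGraph (Fin 32),
    (∀ v, deg G v = 3) ∧ TwoConnected G ∧ faultCost G = 1 :=
  ⟨G, G_cubic, G_twoConnected, faultCost_G⟩

end Pool.Agent.Results.MP_54aac5_co.CubicFaultCostOne
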